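import Mathlib
import Pool.Agent.H579R3.Epi2

set_option autoImplicit false

open Set

namespace Pool.Agent.W889.EE

open Pool.Agent.H579R3.Epi (K IsAuto TLe Lam)

/-! ## Structures coding labelled trees, for elementary embeddings

Nodes of the tree, and for each node `p` and each label `κ` a set of points with colours in
Cantor space; the colours are the finite sets of natural numbers, and, if `κ` is a label of `p`,
also the set of all natural numbers. -/

/-- colours -/
abbrev Col : Type := Option (Finset ℕ)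

/-- the bits of a colour -/
def bit : Col → ℕ → Prop
  | none, _ => True
  | some s, n => n ∈ s

lemma bit_inj {c c' : Col} (h : ∀ n, bit c n ↔ bit c' n) : c = c' := by
  rcases c with _ | s <;> rcases c' with _ | s'
  · rfl
  · obtain ⟨n, hn⟩ := Infinite.exists_notMem_finset s'
    exact absurd ((h n).1 trivial) hn
  · obtain ⟨n, hn⟩ := Infinite.exists_notMem_finset s
    exact absurd ((h n).2 trivial) hn
  · congr 1
    ext n
    exact h n

/-- the elements of the reduced structures -/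
inductive D : Type
  | nd (p : List ℤ) : D
  | pt (p : List ℤ) (κ : K) (c : Col) : D

export D (nd pt)

def D.code : D → List ℤ × Option (K × Col)
  | .nd p => (p, none)
  | .pt p κ c => (p, some (κ, c))

lemma D.code_injective : Function.Injective D.code := by
  intro a b h
  cases a <;> cases b <;> simp_all [D.code]

instance : Countable D := D.code_injective.countable

lemma nd_inj {p q : List ℤ} (h : nd p = nd q) : p = q := by
  simpa using h

lemma pt_inj {p q : List ℤ} {κ κ' : K} {c c' : Col} (h : pt p κ c = pt q κ' c') :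
    p = q ∧ κ = κ' ∧ c = c' := by
  simpa using h

lemma nd_ne_pt {p q : List ℤ} {κ : K} {c : Col} : nd p ≠ pt q κ c := by simp

lemma D_cases (d : D) : (∃ p, d = nd p) ∨ ∃ p κ c, d = pt p κ c := by
  rcases d with p | ⟨p, κ, c⟩
  · exact Or.inl ⟨p, rfl⟩
  · exact Or.inr ⟨p, κ, c, rfl⟩

/-- the relation symbols: `none` root, `some none` the edges, `some (some (inl κ))` attaching the
points with label `κ`, `some (some (inr n))` the `n`-th bit of the colour -/
abbrev I : Type := Option (Option (K ⊕ ℕ))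

/-- the relations of the reduced structure -/
inductive rel : I → D → D → Prop
  | root (b : D) : rel none (nd []) b
  | edge (p : List ℤ) (k : ℤ) : rel (some none) (nd p) (nd (k :: p))
  | att (κ : K) (p : List ℤ) (c : Col) : rel (some (some (Sum.inl κ))) (nd p) (pt p κ c)
  | col (n : ℕ) (p : List ℤ) (κ : K) (c : Col) (b : D) (h : bit c n) :
      rel (some (some (Sum.inr n))) (pt p κ c) b

lemma rel_root {a b : D} : rel none a b ↔ a = nd [] := by
  constructor
  · rintro ⟨⟩
    rfl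
  · rintro rfl
    exact rel.root b

lemma rel_edge {a b : D} : rel (some none) a b ↔ ∃ p k, a = nd p ∧ b = nd (k :: p) := by
  constructor
  · rintro ⟨⟩
    exact ⟨_, _, rfl, rfl⟩
  · rintro ⟨p, k, rfl, rfl⟩
    exact rel.edge p k

lemma rel_att {κ : K} {a b : D} :
    rel (some (some (Sum.inl κ))) a b ↔ ∃ p c, a = nd p ∧ b = pt p κ c := by
  constructor
  · rintro ⟨⟩
    exact ⟨_, _, rfl, rfl⟩
  · rintro ⟨p, c, rfl, rfl⟩
    exact rel.att κ p c

lemma rel_col {n : ℕ} {a b : D} :
    rel (some (some (Sum.inr n))) a b ↔ ∃ p κ c, a = pt p κ c ∧ bit c n := by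
  constructor
  · rintro ⟨⟩
    exact ⟨_, _, _, rfl, by assumption⟩
  · rintro ⟨p, κ, c, rfl, h⟩
    exact rel.col n p κ c b h

/-- the map of `D` induced by a map of the tree -/
def mapD (g : List ℤ → List ℤ) : D → D
  | .nd p => nd (g p)
  | .pt p κ c => pt (g p) κ c

lemma mapD_nd (g : List ℤ → List ℤ) (p : List ℤ) : mapD g (nd p) = nd (g p) := rfl
lemma mapD_pt (g : List ℤ → List ℤ) (p : List ℤ) (κ : K) (c : Col) :
    mapD g (pt p κ c) = pt (g p) κ c := rfl

lemma mapD_inj {g : List ℤ → List ℤ} (hg : Function.Injective g) :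
    Function.Injective (mapD g) := by
  intro a b h
  cases a <;> cases b <;> simp [mapD] at h ⊢
  · exact hg h
  · exact ⟨hg h.1, h.2⟩

lemma mapD_rel {g : List ℤ → List ℤ} (hg : IsAuto g) (i : I) (a b : D) :
    rel i (mapD g a) (mapD g b) ↔ rel i a b := by
  have hnil : ∀ p, g p = [] ↔ p = [] := fun p =>
    ⟨fun h => hg.bij.1 (h.trans hg.nil.symm), fun h => by rw [h, hg.nil]⟩
  rcases i with _ | _ | κ | n
  · rw [rel_root, rel_root]
    rcases D_cases a with ⟨p, rfl⟩ | ⟨p, κ, c, rfl⟩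
    · rw [mapD_nd]
      constructor
      · intro h
        rw [(hnil p).1 (nd_inj h)]
      · intro h
        rw [(hnil p).2 (nd_inj h)]
    · rw [mapD_pt]
      exact ⟨fun h => absurd h.symm nd_ne_pt, fun h => absurd h.symm nd_ne_pt⟩
  · rw [rel_edge, rel_edge]
    constructor
    · rintro ⟨p, k, h1, h2⟩
      rcases D_cases a with ⟨a', rfl⟩ | ⟨a', κ, c, rfl⟩
      · rcases D_cases b with ⟨b', rfl⟩ | ⟨b', κ, c, rfl⟩
        · rw [mapD_nd] at h1 h2
          have e1 := nd_inj h1
          have e2 := nd_inj h2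
          rcases b' with _ | ⟨k', b'⟩
          · rw [hg.nil] at e2
            exact absurd e2 (by simp)
          · obtain ⟨k'', e3⟩ := hg.cons k' b'
            rw [e3] at e2
            have e4 := (List.cons.inj e2).2
            rw [← e1] at e4
            have e5 := hg.bij.1 e4
            exact ⟨a', k', rfl, by rw [e5]⟩
        · exact absurd h2.symm nd_ne_pt
      · exact absurd h1.symm nd_ne_pt
    · rintro ⟨p, k, rfl, rfl⟩
      obtain ⟨k', e⟩ := hg.cons k p
      exact ⟨g p, k', rfl, by rw [mapD_nd, e]⟩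
  · rw [rel_att, rel_att]
    constructor
    · rintro ⟨p, c, h1, h2⟩
      rcases D_cases a with ⟨a', rfl⟩ | ⟨a', κ', c', rfl⟩
      · rcases D_cases b with ⟨b', rfl⟩ | ⟨b', κ', c', rfl⟩
        · exact absurd h2 nd_ne_pt
        · rw [mapD_nd] at h1
          rw [mapD_pt] at h2
          have e1 := nd_inj h1
          obtain ⟨e2, e3, e4⟩ := pt_inj h2
          rw [← e1] at e2
          exact ⟨a', c', rfl, by rw [hg.bij.1 e2, e3]⟩
      · exact absurd h1.symm nd_ne_pt
    · rintro ⟨p, c, rfl, rfl⟩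
      exact ⟨g p, c, rfl, rfl⟩
  · rw [rel_col, rel_col]
    constructor
    · rintro ⟨p, κ, c, h1, h2⟩
      rcases D_cases a with ⟨a', rfl⟩ | ⟨a', κ', c', rfl⟩
      · exact absurd h1 nd_ne_pt
      · rw [mapD_pt] at h1
        obtain ⟨e1, e2, e3⟩ := pt_inj h1
        exact ⟨a', κ', c', rfl, by rw [e3]; exact h2⟩
    · rintro ⟨p, κ, c, rfl, h⟩
      exact ⟨g p, κ, c, rfl, h⟩

/-- the enumeration of the relation symbols -/
noncomputable def en : ℕ ≃ I := (Denumerable.eqv I).symm

/-- the structures -/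
abbrev Str : Type := ∀ i : ℕ, (Fin ((fun _ => 2 : ℕ → ℕ) i) → ℕ) → Bool

open Classical in
/-- the structure on `ℕ` pulled back from the reduced structure -/
noncomputable def pull (π : ℕ → D) : Str := fun i v => decide (rel (en i) (π (v 0)) (π (v 1)))

lemma pull_iff (π : ℕ → D) (i : ℕ) (v : Fin 2 → ℕ) :
    pull π i v = true ↔ rel (en i) (π (v 0)) (π (v 1)) := by
  classical
  unfold pull
  rw [decide_eq_true_iff]

lemma rel_of_pull {π ρ : ℕ → D} (h : pull π = pull ρ) (i : I) (a b : ℕ) :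
    rel i (π a) (π b) ↔ rel i (ρ a) (ρ b) := by
  have h1 := pull_iff π (en.symm i) ![a, b]
  have h2 := pull_iff ρ (en.symm i) ![a, b]
  rw [Equiv.apply_symm_apply] at h1 h2
  rw [h] at h1
  exact h1.symm.trans h2

/-- the points present, for the labelling `Λ` -/
def J (Λ : List ℤ → Set K) : D → Prop
  | .nd _ => True
  | .pt p κ c => c = none → κ ∈ Λ p

/-- `π` enumerates the points present -/
def Fib (Λ : List ℤ → Set K) (π : ℕ → D) : Prop :=
  (∀ m n, π m = π n → m = n) ∧ ∀ d, J Λ d ↔ ∃ n, π n = d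

/-- a map preserving the relations in both directions gives a map of labelled trees -/
theorem tree_of_emb {Λ Λ' : List ℤ → Set K} {π π' : ℕ → D} (hF : Fib Λ π) (hF' : Fib Λ' π')
    {h : ℕ → ℕ} (hh : ∀ i a b, rel i (π a) (π b) ↔ rel i (π' (h a)) (π' (h b))) :
    ∃ g : List ℤ → List ℤ, g [] = [] ∧ (∀ k p, ∃ k', g (k :: p) = k' :: g p) ∧
      (∀ p, Λ p ⊆ Λ' (g p)) ∧ ∀ n, π' (h n) = mapD g (π n) := by
  have hnode : ∀ p, ∃ p', ∀ n, π n = nd p → π' (h n) = nd p' := by
    intro p
    obtain ⟨n, hn⟩ := (hF.2 (nd p)).1 trivial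
    obtain ⟨m, hm⟩ := (hF.2 (nd (0 :: p))).1 trivial
    have h1 : rel (some none) (π n) (π m) := rel_edge.2 ⟨p, 0, hn, hm⟩
    rw [hh, rel_edge] at h1
    obtain ⟨p', _, h2, _⟩ := h1
    refine ⟨p', fun n' hn' => ?_⟩
    rw [hF.1 n' n (hn'.trans hn.symm), h2]
  choose g hg using hnode
  have hpt : ∀ n p κ c, π n = pt p κ c → π' (h n) = pt (g p) κ c := by
    intro n p κ c hn
    obtain ⟨m, hm⟩ := (hF.2 (nd p)).1 trivial
    have h1 : rel (some (some (Sum.inl κ))) (π m) (π n) := rel_att.2 ⟨p, c, hm, hn⟩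
    rw [hh, rel_att] at h1
    obtain ⟨p', c', h2, h3⟩ := h1
    rw [hg p m hm] at h2
    rw [h3, ← nd_inj h2]
    have h4 : c' = c := by
      apply bit_inj
      intro k
      have h5 := hh (some (some (Sum.inr k))) n n
      rw [rel_col, rel_col, hn, h3] at h5
      constructor
      · intro hb
        obtain ⟨_, _, _, e, hb'⟩ := h5.2 ⟨_, _, _, rfl, hb⟩
        rw [(pt_inj e).2.2]
        exact hb'
      · intro hb
        obtain ⟨_, _, _, e, hb'⟩ := h5.1 ⟨_, _, _, rfl, hb⟩
        rw [(pt_inj e).2.2]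
        exact hb'
    rw [h4]
  refine ⟨g, ?_, ?_, ?_, ?_⟩
  · obtain ⟨n, hn⟩ := (hF.2 (nd [])).1 trivial
    have h1 : rel none (π n) (π n) := rel_root.2 hn
    rw [hh, rel_root, hg _ _ hn] at h1
    exact nd_inj h1
  · intro k p
    obtain ⟨n, hn⟩ := (hF.2 (nd p)).1 trivial
    obtain ⟨m, hm⟩ := (hF.2 (nd (k :: p))).1 trivial
    have h3 : rel (some none) (π n) (π m) := rel_edge.2 ⟨p, k, hn, hm⟩
    rw [hh, rel_edge, hg _ _ hn, hg _ _ hm] at h3
    obtain ⟨q, k', h4, h5⟩ := h3
    refine ⟨k', ?_⟩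
    rw [nd_inj h4, nd_inj h5]
  · intro p κ hκ
    obtain ⟨n, hn⟩ := (hF.2 (pt p κ none)).1 (fun _ => hκ)
    exact (hF'.2 (pt (g p) κ none)).2 ⟨h n, hpt n p κ none hn⟩ rfl
  · intro n
    rcases D_cases (π n) with ⟨p, hn⟩ | ⟨p, κ, c, hn⟩
    · rw [hn, mapD_nd]
      exact hg p n hn
    · rw [hn, mapD_pt]
      exact hpt n p κ c hn

/-- Equal coding structures come from isomorphic labelled trees. -/
theorem lemmaE {Λ Λ' : List ℤ → Set K} {π π' : ℕ → D} (hF : Fib Λ π) (hF' : Fib Λ' π')
    (h : pull π = pull π') : ∃ g, IsAuto g ∧ (∀ n, π' n = mapD g (π n)) ∧ ∀ p, Λ p = Λ' (g p) := by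
  obtain ⟨g, g1, g2, g3, g4⟩ := tree_of_emb hF hF' (h := id) (fun i a b => rel_of_pull h i a b)
  obtain ⟨g', g1', g2', g3', g4'⟩ :=
    tree_of_emb hF' hF (h := id) (fun i a b => (rel_of_pull h i a b).symm)
  have e1 : ∀ p, g' (g p) = p := by
    intro p
    obtain ⟨n, hn⟩ := (hF.2 (nd p)).1 trivial
    have h1 := g4 n
    have h2 := g4' n
    simp only [id] at h1 h2
    rw [h1, hn] at h2
    exact (nd_inj h2).symm
  have e2 : ∀ p, g (g' p) = p := by
    intro p
    obtain ⟨n, hn⟩ := (hF'.2 (nd p)).1 trivial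
    have h1 := g4 n
    have h2 := g4' n
    simp only [id] at h1 h2
    rw [h2, hn] at h1
    exact (nd_inj h1).symm
  refine ⟨g, ⟨⟨fun p q hpq => ?_, fun p => ⟨g' p, e2 p⟩⟩, g1, g2⟩, fun n => g4 n, fun p => ?_⟩
  · rw [← e1 p, hpq, e1]
  · apply Subset.antisymm (g3 p)
    have := g3' (g p)
    rwa [e1] at this

end Pool.Agent.W889.EE
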