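import Mathlib
import Pool.Agent.W889.EE1

set_option autoImplicit false

open Set FirstOrder

namespace Pool.Agent.W889.EE

open Pool.Agent.H579R3.Epi (K IsAuto TLe Lam)

/-! ## Elementarity by automorphisms of finite sublanguages -/

section

variable {L : FirstOrder.Language.{0, 0}} {M N : Type} [L.Structure M] [L.Structure N]

lemma term_comp (hL : ∀ n, IsEmpty (L.Functions n)) (σ : N ≃ N) {α : Type} (t : L.Term α)
    (v : α → N) : t.realize (σ ∘ v) = σ (t.realize v) := by
  rcases t with a | ⟨f, ts⟩
  · rfl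
  · exact ((hL _).false f).elim

/-- a formula only depends on the relations of small rank -/
theorem realize_swap (hL : ∀ n, IsEmpty (L.Functions n)) (rank : ∀ n, L.Relations n → ℕ)
    {α : Type} {n : ℕ} (φ : L.BoundedFormula α n) :
    ∃ m : ℕ, ∀ σ : N ≃ N, (∀ l (r : L.Relations l) (xs : Fin l → N), rank l r < m →
      (Language.Structure.RelMap r (σ ∘ xs) ↔ Language.Structure.RelMap r xs)) →
      ∀ (v : α → N) (xs : Fin n → N), φ.Realize (σ ∘ v) (σ ∘ xs) ↔ φ.Realize v xs := by
  induction φ with
  | falsum => exact ⟨0, fun σ _ v xs => Iff.rfl⟩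
  | equal t₁ t₂ =>
    refine ⟨0, fun σ _ v xs => ?_⟩
    simp only [Language.BoundedFormula.Realize]
    rw [← Sum.comp_elim, term_comp hL, term_comp hL, σ.apply_eq_iff_eq]
  | rel R ts =>
    refine ⟨rank _ R + 1, fun σ hσ v xs => ?_⟩
    simp only [Language.BoundedFormula.Realize]
    rw [← Sum.comp_elim]
    have : (fun i => (ts i).realize (σ ∘ Sum.elim v xs)) =
        σ ∘ fun i => (ts i).realize (Sum.elim v xs) := by
      funext i
      exact term_comp hL σ _ _
    rw [this]
    exact hσ _ R _ (Nat.lt_succ_self _)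
  | imp f₁ f₂ ih1 ih2 =>
    obtain ⟨m1, h1⟩ := ih1
    obtain ⟨m2, h2⟩ := ih2
    refine ⟨max m1 m2, fun σ hσ v xs => ?_⟩
    simp only [Language.BoundedFormula.Realize]
    rw [h1 σ (fun l r xs hr => hσ l r xs (lt_of_lt_of_le hr (le_max_left _ _))),
      h2 σ (fun l r xs hr => hσ l r xs (lt_of_lt_of_le hr (le_max_right _ _)))]
  | all f ih =>
    obtain ⟨m, h⟩ := ih
    refine ⟨m, fun σ hσ v xs => ?_⟩
    simp only [Language.BoundedFormula.Realize]
    constructor
    · intro h1 x
      rw [← h σ hσ]
      have := h1 (σ x)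
      rwa [← Fin.comp_snoc] at this
    · intro h1 x
      have := h1 (σ.symm x)
      rw [← h σ hσ, Fin.comp_snoc, σ.apply_symm_apply] at this
      exact this

/-- an embedding is elementary if finite sublanguages have enough automorphisms -/
theorem elementary_of_swap (hL : ∀ n, IsEmpty (L.Functions n)) (rank : ∀ n, L.Relations n → ℕ)
    (f : M ↪[L] N)
    (H : ∀ (m n : ℕ) (x : Fin n → M) (b : N), ∃ σ : N ≃ N,
      (∀ l (r : L.Relations l) (xs : Fin l → N), rank l r < m →
        (Language.Structure.RelMap r (σ ∘ xs) ↔ Language.Structure.RelMap r xs)) ∧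
      (∀ i, σ (f (x i)) = f (x i)) ∧ ∃ a, σ b = f a) :
    Nonempty (M ↪ₑ[L] N) := by
  refine ⟨f.toElementaryEmbedding ?_⟩
  intro n φ x b hb
  obtain ⟨m, hm⟩ := realize_swap (N := N) hL rank φ
  obtain ⟨σ, h1, h2, a, h3⟩ := H m n x b
  refine ⟨a, ?_⟩
  rw [← hm σ h1] at hb
  rw [Fin.comp_snoc] at hb
  have e1 : (σ ∘ (f ∘ x) : Fin n → N) = f ∘ x := by
    funext i
    exact h2 i
  rw [e1, h3] at hb
  have e2 : (σ ∘ (default : Empty → N)) = default := Subsingleton.elim _ _
  rw [e2] at hb
  exact hb

end

/-! ## Elementary embeddings of the coding structures -/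

/-- the language -/
abbrev Lg : FirstOrder.Language.{0, 0} :=
  FirstOrder.Language.mk (fun _ => PEmpty.{1}) (fun n => {i : ℕ // (fun _ => 2 : ℕ → ℕ) i = n})

/-- the structure coded by `u` -/
abbrev stc (u : Str) : Lg.Structure ℕ :=
  @FirstOrder.Language.Structure.mk Lg ℕ
    (fun f _ => PEmpty.elim f)
    (fun r xs => u (Subtype.val r) (xs ∘ Fin.cast (Subtype.property r)) = true)

/-- elementary embeddability -/
def ELe (u v : Str) : Prop :=
  Nonempty (@FirstOrder.Language.ElementaryEmbedding Lg ℕ ℕ (stc u) (stc v))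

lemma relMap_pull (π : ℕ → D) {l : ℕ} (r : Lg.Relations l) (xs : Fin l → ℕ) :
    (@Language.Structure.RelMap Lg ℕ (stc (pull π)) l r xs) ↔
      rel (en r.1) (π (xs (Fin.cast r.2 0))) (π (xs (Fin.cast r.2 1))) := by
  have := pull_iff π r.1 (xs ∘ Fin.cast r.2)
  exact this

theorem lemmaB1 {Λ Λ' : List ℤ → Set K} {π π' : ℕ → D} (hF : Fib Λ π) (hF' : Fib Λ' π')
    (h : ELe (pull π) (pull π')) :
    ∃ g : List ℤ → List ℤ, g [] = [] ∧ (∀ k p, ∃ k', g (k :: p) = k' :: g p) ∧
      (∀ p, Λ p ⊆ Λ' (g p)) := by
  obtain ⟨f⟩ := h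
  have key : ∀ i a b, rel i (π a) (π b) ↔ rel i (π' (f a)) (π' (f b)) := by
    intro i a b
    have h1 := @Language.ElementaryEmbedding.map_rel Lg ℕ ℕ (stc (pull π)) (stc (pull π')) f 2
      ⟨en.symm i, rfl⟩ ![a, b]
    rw [relMap_pull, relMap_pull] at h1
    simp only [Equiv.apply_symm_apply] at h1
    exact h1.symm
  obtain ⟨g, g1, g2, g3, -⟩ := tree_of_emb hF hF' key
  exact ⟨g, g1, g2, g3⟩

theorem lemmaB2 {Λ Λ' : List ℤ → Set K} {π π' : ℕ → D} (hF : Fib Λ π) (hF' : Fib Λ' π')
    (h : TLe Λ Λ') : ELe (pull π) (pull π') := by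
  classical
  obtain ⟨g, hg, hΛ⟩ := h
  have hJ : ∀ d, J Λ d → J Λ' (mapD g d) := by
    intro d hd
    rcases D_cases d with ⟨p, rfl⟩ | ⟨p, κ, c, rfl⟩
    · trivial
    · intro hc
      exact hΛ p (hd hc)
  have hex : ∀ n, ∃ n', π' n' = mapD g (π n) := fun n =>
    (hF'.2 _).1 (hJ _ ((hF.2 _).2 ⟨n, rfl⟩))
  choose f hf using hex
  have finj : Function.Injective f := by
    intro a b hab
    apply hF.1
    apply mapD_inj hg.bij.1
    rw [← hf, ← hf, hab]
  have frel : ∀ i a b, rel i (π' (f a)) (π' (f b)) ↔ rel i (π a) (π b) := by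
    intro i a b
    rw [hf, hf, mapD_rel hg]
  refine @elementary_of_swap Lg ℕ ℕ (stc (pull π)) (stc (pull π')) (fun _ => inferInstanceAs
    (IsEmpty PEmpty)) (fun l r => match en r.1 with
      | some (some (Sum.inr n)) => n
      | _ => 0)
    (@Language.Embedding.mk Lg ℕ ℕ (stc (pull π)) (stc (pull π')) ⟨f, finj⟩ ?_ ?_) ?_
  · intro l F
    exact PEmpty.elim F
  · intro l r xs
    rw [relMap_pull, relMap_pull]
    exact frel _ _ _
  · intro m n x b
    by_cases hb : ∃ a, b = f a
    · obtain ⟨a, rfl⟩ := hb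
      exact ⟨Equiv.refl _, fun l r xs _ => Iff.rfl, fun i => rfl, a, rfl⟩
    · -- `b` is a new point
      obtain ⟨q, κ, hbq⟩ : ∃ q κ, π' b = pt q κ none := by
        rcases D_cases (π' b) with ⟨q, hq⟩ | ⟨q, κ, c, hq⟩
        · exfalso
          obtain ⟨p, rfl⟩ := hg.bij.2 q
          obtain ⟨a, ha⟩ := (hF.2 (nd p)).1 trivial
          refine hb ⟨a, hF'.1 _ _ ?_⟩
          rw [hq, hf, ha, mapD_nd]
        · rcases c with _ | s
          · exact ⟨q, κ, hq⟩
          · exfalso
            obtain ⟨p, rfl⟩ := hg.bij.2 q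
            obtain ⟨a, ha⟩ := (hF.2 (pt p κ (some s))).1 (fun h => by simp at h)
            refine hb ⟨a, hF'.1 _ _ ?_⟩
            rw [hq, hf, ha, mapD_pt]
      obtain ⟨p, rfl⟩ := hg.bij.2 q
      -- old points with similar colours
      have hex : ∀ k : ℕ, ∃ a, π a = pt p κ (some (Finset.range k)) := fun k =>
        (hF.2 _).1 (fun h => by simp at h)
      choose a ha using hex
      have ainj : Function.Injective a := by
        intro k k' hk
        have h1 := ha k
        rw [hk, ha k'] at h1
        have h2 := (pt_inj h1).2.2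
        have h3 := congrArg Finset.card (Option.some.inj h2)
        simpa using h3.symm
      obtain ⟨k, hk1, hk2⟩ : ∃ k, m ≤ k ∧ ∀ i, a k ≠ x i := by
        have hfin : (Set.range x).Finite := Set.finite_range x
        have hinf : (a '' (Set.Ici m)).Infinite :=
          (Set.infinite_image_iff ainj.injOn).2 (Set.Ici_infinite m)
        obtain ⟨y, ⟨k, hk, rfl⟩, hy⟩ := (hinf.sdiff hfin).nonempty
        exact ⟨k, hk, fun i hi => hy ⟨i, hi.symm⟩⟩
      have hfa : π' (f (a k)) = pt (g p) κ (some (Finset.range k)) := by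
        rw [hf, ha, mapD_pt]
      refine ⟨Equiv.swap b (f (a k)), ?_, ?_, a k, Equiv.swap_apply_left _ _⟩
      · intro l r xs hr
        rw [relMap_pull, relMap_pull]
        simp only [Function.comp]
        set y := xs (Fin.cast r.2 0)
        set z := xs (Fin.cast r.2 1)
        -- how the swap acts
        have hsw : ∀ c, (π' (Equiv.swap b (f (a k)) c) = π' c) ∨
            (∃ c1 c2, π' c = pt (g p) κ c1 ∧ π' (Equiv.swap b (f (a k)) c) = pt (g p) κ c2 ∧
              ∀ j < m, bit c1 j ∧ bit c2 j) := by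
          intro c
          by_cases h1 : c = b
          · right
            refine ⟨none, some (Finset.range k), by rw [h1, hbq], ?_, fun j hj => ⟨trivial, ?_⟩⟩
            · rw [h1, Equiv.swap_apply_left, hfa]
            · exact Finset.mem_range.2 (lt_of_lt_of_le hj hk1)
          · by_cases h2 : c = f (a k)
            · right
              refine ⟨some (Finset.range k), none, by rw [h2, hfa], ?_, fun j hj => ⟨?_, trivial⟩⟩
              · rw [h2, Equiv.swap_apply_right, hbq]
              · exact Finset.mem_range.2 (lt_of_lt_of_le hj hk1)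
            · left
              rw [Equiv.swap_apply_of_ne_of_ne h1 h2]
        generalize Equiv.swap b (f (a k)) = σ at hsw
        have hy := hsw y
        have hz := hsw z
        clear hsw
        rcases hi : en r.1 with _ | _ | κ' | j
        · rw [rel_root, rel_root]
          rcases hy with hy | ⟨c1, c2, hy1, hy2, -⟩
          · rw [hy]
          · rw [hy1, hy2]
            exact ⟨fun h => absurd h.symm nd_ne_pt, fun h => absurd h.symm nd_ne_pt⟩
        · rw [rel_edge, rel_edge]
          rcases hy with hy | ⟨c1, c2, hy1, hy2, -⟩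
          · rcases hz with hz | ⟨c1, c2, hz1, hz2, -⟩
            · rw [hy, hz]
            · rw [hz1, hz2]
              constructor
              · rintro ⟨_, _, _, h⟩
                exact absurd h.symm nd_ne_pt
              · rintro ⟨_, _, _, h⟩
                exact absurd h.symm nd_ne_pt
          · rw [hy1, hy2]
            constructor
            · rintro ⟨_, _, h, _⟩
              exact absurd h.symm nd_ne_pt
            · rintro ⟨_, _, h, _⟩
              exact absurd h.symm nd_ne_pt
        · rw [rel_att, rel_att]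
          rcases hy with hy | ⟨c1, c2, hy1, hy2, -⟩
          · rw [hy]
            rcases hz with hz | ⟨c1, c2, hz1, hz2, -⟩
            · rw [hz]
            · rw [hz1, hz2]
              constructor
              · rintro ⟨p', c', h1, h2⟩
                obtain ⟨e1, e2, e3⟩ := pt_inj h2
                exact ⟨p', c1, h1, by rw [e1, e2]⟩
              · rintro ⟨p', c', h1, h2⟩
                obtain ⟨e1, e2, e3⟩ := pt_inj h2
                exact ⟨p', c2, h1, by rw [e1, e2]⟩
          · rw [hy1, hy2]
            constructor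
            · rintro ⟨_, _, h, _⟩
              exact absurd h.symm nd_ne_pt
            · rintro ⟨_, _, h, _⟩
              exact absurd h.symm nd_ne_pt
        · have hj : j < m := by
            have := hr
            simp only [hi] at this
            exact this
          rw [rel_col, rel_col]
          rcases hy with hy | ⟨c1, c2, hy1, hy2, hb12⟩
          · rw [hy]
          · rw [hy1, hy2]
            exact ⟨fun _ => ⟨_, _, _, rfl, (hb12 j hj).1⟩, fun _ => ⟨_, _, _, rfl, (hb12 j hj).2⟩⟩
      · intro i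
        apply Equiv.swap_apply_of_ne_of_ne
        · exact fun h => hb ⟨x i, h.symm⟩
        · exact fun h => hk2 i (finj h).symm

end Pool.Agent.W889.EE
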