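import Mathlib
import Pool.Agent.W889.EE2

set_option autoImplicit false

open Set MeasureTheory FirstOrder

namespace Pool.Agent.W889.EE

open Pool.Agent.H579R3.Epi hiding D mapD mapD_nd mapD_inj nd_inj D_cases rel pull pull_iff rel_of_pull J Fib lemmaE Str
open Pool.Agent.W889.EE

section

variable {α β : N → N}

/-- the relation with witnesses `w`, where `α w` is related to `β w` -/
theorem rel_of_map {x y : N} (hα : Continuous α) (hβ : Continuous β)
    (htrans : ∀ u v t w w', α w = u → β w = v → α w' = v → β w' = t →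
      ∃ w'', α w'' = u ∧ β w'' = t)
    {g : List ℤ → List ℤ} (hgnil : g [] = []) (hgcons : ∀ k p, ∃ k', g (k :: p) = k' :: g p)
    (hL : ∀ p, Lam α β x p ⊆ Lam α β y (g p)) : x = y ∨ ∃ w, α w = x ∧ β w = y := by
  let q : ℕ → List ℤ := fun n => g (br x n)
  have hex : ∀ n, ∃ k, q (n + 1) = k :: q n := fun n => hgcons _ _
  choose k hk using hex
  have hl : ∀ n, (q n).length = n := by
    intro n
    induction n with
    | zero =>
      change (g []).length = 0
      rw [hgnil]
      rfl
    | succ n ih => rw [hk, List.length_cons, ih]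
  have hmem : ∀ n, Valid α β y (q (n + 1)) ∧ x n = (ent (k n)).1 := by
    intro n
    have h1 := hL _ (br_lam (α := α) (β := β) x n)
    change _ ∈ Lam α β y (q (n + 1)) at h1
    rw [hk, Lam_inr] at h1
    rw [hk]
    exact h1
  -- the limit chain
  set m := (ent (k 0)).2.length with hm
  let L : List (N × N) := List.ofFn fun j : Fin m =>
    ((fun i => ((ent (k i)).2.getD j (0, 0)).1), (fun i => ((ent (k i)).2.getD j (0, 0)).2))
  have hlen : ∀ n, (ent (k n)).2.length = m := by
    intro n
    obtain ⟨⟨a, l, -, h2, -⟩, -⟩ := hmem n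
    have h3 := Enc.get hk hl h2 n (by omega)
    have h4 := Enc.get hk hl h2 0 (by omega)
    rw [hm, h3, h4]
    simp [evalAt]
  have hev : ∀ n, evalAt x L n = ent (k n) := by
    intro n
    have h1 : (L.map fun q => (q.1 n, q.2 n)) = (ent (k n)).2 := by
      apply List.ext_getElem
      · simp [L, hlen]
      · intro j h2 h3
        simp [L, List.getElem?_eq_getElem h3]
    rw [evalAt, h1, (hmem n).2]
  have hgood : ∀ n, Good α β n x L ∧ ∀ i < n, last x L i = y i := by
    intro n
    rcases n with _ | n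
    · obtain ⟨⟨a, l, h1, h2, -⟩, -⟩ := hmem 0
      refine ⟨?_, fun i hi => by omega⟩
      have h3 := Enc.get hk hl h2 0 (by omega)
      have h4 := hev 0
      rw [h3] at h4
      have h5 : l.length = L.length := by
        have := congrArg (fun e => e.2.length) h4
        simp only [evalAt, List.length_map] at this
        exact this.symm
      exact (h1.mono (Nat.zero_le _)).congr h5 (fun i hi => by omega)
    · obtain ⟨⟨a, l, h1, h2, h2'⟩, -⟩ := hmem n
      have h3 := Enc.get hk hl h2
      rw [hl] at h1 h2'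
      have h5 : l.length = L.length := by
        have h4 := hev 0
        rw [h3 0 (by omega)] at h4
        have := congrArg (fun e => e.2.length) h4
        simp only [evalAt, List.length_map] at this
        exact this.symm
      have h6 : ∀ i < n + 1, evalAt a l i = evalAt x L i := by
        intro i hi
        rw [hev, h3 i hi]
      refine ⟨h1.congr h5 h6, fun i hi => ?_⟩
      rw [← last_congr (h6 i hi)]
      exact h2' i hi
  have hlast : last x L = y := by
    funext i
    exact (hgood (i + 1)).2 i (by omega)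
  -- closedness
  have hclosed : ∀ (a b w : N), (∀ n, ∃ w' : N, ∀ i < n, α w' i = a i ∧ β w' i = b i ∧ w' i = w i) →
      α w = a ∧ β w = b := by
    intro a b w h1
    choose w' hw' using h1
    have hlim : Filter.Tendsto w' Filter.atTop (nhds w) := by
      rw [tendsto_pi_nhds]
      intro i
      apply tendsto_const_nhds.congr'
      filter_upwards [Filter.eventually_gt_atTop i] with n hn
      exact ((hw' n i hn).2.2).symm
    constructor
    · funext i
      have h2 := (tendsto_pi_nhds.1 ((hα.tendsto w).comp hlim)) i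
      have h3 : Filter.Tendsto (fun n => (α ∘ w') n i) Filter.atTop (nhds (a i)) := by
        apply tendsto_const_nhds.congr'
        filter_upwards [Filter.eventually_gt_atTop i] with n hn
        exact ((hw' n i hn).1).symm
      exact tendsto_nhds_unique h2 h3
    · funext i
      have h2 := (tendsto_pi_nhds.1 ((hβ.tendsto w).comp hlim)) i
      have h3 : Filter.Tendsto (fun n => (β ∘ w') n i) Filter.atTop (nhds (b i)) := by
        apply tendsto_const_nhds.congr'
        filter_upwards [Filter.eventually_gt_atTop i] with n hn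
        exact ((hw' n i hn).2.1).symm
      exact tendsto_nhds_unique h2 h3
  have hreach : ∀ l : List (N × N), (∀ n, Good α β n x l) →
      x = last x l ∨ ∃ w, α w = x ∧ β w = last x l := by
    intro l
    induction l with
    | nil => intro _; exact Or.inl rfl
    | cons q l ih =>
      intro h1
      have h2 := ih fun n => (h1 n).2
      obtain ⟨h3, h4⟩ := hclosed (last x l) q.2 q.1 fun n => (h1 n).1
      rcases h2 with h2 | ⟨w, h5, h6⟩
      · exact Or.inr ⟨q.1, by rw [h3, ← h2], h4⟩
      · obtain ⟨w'', h7, h8⟩ := htrans _ _ _ _ _ h5 h6 h3 h4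
        exact Or.inr ⟨w'', h7, h8⟩
  have := hreach L fun n => (hgood n).1
  rwa [hlast] at this


end

/-! ## Measurability -/

instance : MeasurableSpace D := ⊤
instance : DiscreteMeasurableSpace D := ⟨fun _ => trivial⟩

instance : Infinite D := Infinite.of_injective nd fun _ _ h => nd_inj h

lemma measurable_pull : Measurable pull := by
  classical
  refine measurable_pi_lambda _ fun i => measurable_pi_lambda _ fun v => ?_
  have h1 : Measurable (fun π : ℕ → D => (π (v 0), π (v 1))) :=
    (measurable_pi_apply _).prodMk (measurable_pi_apply _)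
  exact (Measurable.of_discrete (f := fun r : D × D => decide (rel (en i) r.1 r.2))).comp h1

section

variable {X : Type} [MeasurableSpace X] (Λ : X → List ℤ → Set K)

lemma measurableSet_J (hΛ : ∀ p κ, MeasurableSet {x : X | κ ∈ Λ x p}) (d : D) :
    MeasurableSet {x : X | J (Λ x) d} := by
  rcases D_cases d with ⟨p, rfl⟩ | ⟨p, κ, c, rfl⟩
  · exact MeasurableSet.const True
  · have : {x : X | J (Λ x) (pt p κ c)} = {_x | ¬ c = none} ∪ {x : X | κ ∈ Λ x p} := by
      ext x
      change (c = none → κ ∈ Λ x p) ↔ (¬ c = none) ∨ κ ∈ Λ x p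
      tauto
    rw [this]
    exact (MeasurableSet.const _).union (hΛ p κ)

lemma measurableSet_fib (hΛ : ∀ p κ, MeasurableSet {x : X | κ ∈ Λ x p}) :
    MeasurableSet {q : (ℕ → D) × X | Fib (Λ q.2) q.1} := by
  have hn : ∀ (n : ℕ), Measurable (fun q : (ℕ → D) × X => q.1 n) := fun n =>
    (measurable_pi_apply n).comp measurable_fst
  have h1 : MeasurableSet {q : (ℕ → D) × X | ∀ m n, q.1 m = q.1 n → m = n} := by
    have : {q : (ℕ → D) × X | ∀ m n, q.1 m = q.1 n → m = n} =
        ⋂ m, ⋂ n, ({q : (ℕ → D) × X | q.1 m = q.1 n}ᶜ ∪ {_q | m = n}) := by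
      ext q
      simp only [mem_iInter, mem_union, mem_compl_iff]
      change (∀ m n, q.1 m = q.1 n → m = n) ↔ ∀ m n, ¬ (q.1 m = q.1 n) ∨ m = n
      refine forall_congr' fun m => forall_congr' fun n => ?_
      tauto
    rw [this]
    refine MeasurableSet.iInter fun m => MeasurableSet.iInter fun n =>
      MeasurableSet.union (MeasurableSet.compl ?_) (MeasurableSet.const _)
    have h2 : Measurable (fun q : (ℕ → D) × X => (q.1 m, q.1 n)) := (hn m).prodMk (hn n)
    exact h2 (MeasurableSet.of_discrete (s := {r : D × D | r.1 = r.2}))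
  have h2 : ∀ d : D, MeasurableSet {q : (ℕ → D) × X | J (Λ q.2) d} := fun d =>
    measurable_snd (measurableSet_J Λ hΛ d)
  have h3 : ∀ d : D, MeasurableSet {q : (ℕ → D) × X | ∃ n, q.1 n = d} := by
    intro d
    have : {q : (ℕ → D) × X | ∃ n, q.1 n = d} = ⋃ n, {q : (ℕ → D) × X | q.1 n = d} := by
      ext q
      simp only [mem_iUnion]
      exact Iff.rfl
    rw [this]
    exact MeasurableSet.iUnion fun n => hn n (MeasurableSet.of_discrete (s := {d}))
  have : {q : (ℕ → D) × X | Fib (Λ q.2) q.1} =
      {q : (ℕ → D) × X | ∀ m n, q.1 m = q.1 n → m = n} ∩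
        ⋂ d : D, (({q : (ℕ → D) × X | J (Λ q.2) d} ∩ {q : (ℕ → D) × X | ∃ n, q.1 n = d}) ∪
          ({q : (ℕ → D) × X | J (Λ q.2) d}ᶜ ∩ {q : (ℕ → D) × X | ∃ n, q.1 n = d}ᶜ)) := by
    ext q
    simp only [mem_iInter, mem_inter_iff, mem_union, mem_compl_iff]
    change ((∀ m n, q.1 m = q.1 n → m = n) ∧ ∀ d, J (Λ q.2) d ↔ ∃ n, q.1 n = d) ↔
      (∀ m n, q.1 m = q.1 n → m = n) ∧ ∀ d, ((J (Λ q.2) d ∧ ∃ n, q.1 n = d) ∨
        (¬ J (Λ q.2) d ∧ ¬ ∃ n, q.1 n = d))
    refine and_congr Iff.rfl (forall_congr' fun d => ?_)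
    tauto
  rw [this]
  exact h1.inter (MeasurableSet.iInter fun d =>
    ((h2 d).inter (h3 d)).union ((h2 d).compl.inter (h3 d).compl))

/-- an enumeration of `D` -/
noncomputable def dn : ℕ ≃ D :=
  (@Denumerable.eqv D (Classical.choice (nonempty_denumerable D))).symm

lemma inf_J (L : List ℤ → Set K) : {n | J L (dn n)}.Infinite := by
  have h1 : range (fun p : List ℤ => dn.symm (nd p)) ⊆ {n | J L (dn n)} := by
    rintro _ ⟨p, rfl⟩
    change J L (dn (dn.symm (nd p)))
    rw [Equiv.apply_symm_apply]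
    trivial
  refine Infinite.mono h1 (infinite_range_of_injective fun p q h => ?_)
  exact nd_inj (dn.symm.injective h)

/-- the enumeration of the points present in the order of their numbers -/
noncomputable def rho (L : List ℤ → Set K) (k : ℕ) : D := dn (Nat.nth (fun n => J L (dn n)) k)

lemma fib_rho (L : List ℤ → Set K) : Fib L (rho L) := by
  refine ⟨fun m n h => Nat.nth_injective (inf_J L) (dn.injective h), fun d => ?_⟩
  have h1 := Nat.range_nth_of_infinite (inf_J L)
  constructor
  · intro hd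
    have h2 : dn.symm d ∈ {n | J L (dn n)} := by
      change J L (dn (dn.symm d))
      rwa [Equiv.apply_symm_apply]
    rw [← h1] at h2
    obtain ⟨k, hk⟩ := h2
    refine ⟨k, ?_⟩
    unfold rho
    rw [hk, Equiv.apply_symm_apply]
  · rintro ⟨k, rfl⟩
    exact Nat.nth_mem_of_infinite (inf_J L) k

lemma measurable_rho (hΛ : ∀ p κ, MeasurableSet {x : X | κ ∈ Λ x p}) :
    Measurable (fun x : X => rho (Λ x)) := by
  classical
  refine measurable_pi_lambda _ fun k => ?_
  have hc : ∀ m, Measurable (fun x : X => Nat.count (fun n => J (Λ x) (dn n)) m) := by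
    intro m
    have : (fun x : X => Nat.count (fun n => J (Λ x) (dn n)) m) =
        fun x => ∑ i ∈ Finset.range m, if J (Λ x) (dn i) then 1 else 0 := by
      funext x
      rw [Nat.count_eq_card_filter_range, Finset.card_filter]
    rw [this]
    exact Finset.measurable_sum _ fun i _ =>
      Measurable.ite (measurableSet_J Λ hΛ _) measurable_const measurable_const
  have hn : Measurable (fun x : X => Nat.nth (fun n => J (Λ x) (dn n)) k) := by
    refine measurable_to_countable' fun m => ?_
    have : (fun x : X => Nat.nth (fun n => J (Λ x) (dn n)) k) ⁻¹' {m} =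
        {x | J (Λ x) (dn m)} ∩ {x | Nat.count (fun n => J (Λ x) (dn n)) m = k} := by
      ext x
      simp only [mem_preimage, mem_singleton_iff, mem_inter_iff]
      change _ ↔ J (Λ x) (dn m) ∧ Nat.count (fun n => J (Λ x) (dn n)) m = k
      constructor
      · rintro rfl
        exact ⟨Nat.nth_mem_of_infinite (inf_J (Λ x)) k, Nat.count_nth_of_infinite (inf_J (Λ x)) k⟩
      · rintro ⟨h1, rfl⟩
        exact Nat.nth_count (p := fun n => J (Λ x) (dn n)) h1
    rw [this]
    exact (measurableSet_J Λ hΛ _).inter (hc m (MeasurableSet.of_discrete (s := {k})))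
  exact (Measurable.of_discrete (f := dn)).comp hn

end

lemma Fib.perm {L : List ℤ → Set K} {π : ℕ → D} (h : Fib L π) (σ : Equiv.Perm ℕ) :
    Fib L (π ∘ σ) := by
  refine ⟨fun m n hmn => σ.injective (h.1 _ _ hmn), fun d => (h.2 d).trans ?_⟩
  constructor
  · rintro ⟨n, hn⟩
    exact ⟨σ.symm n, by simpa using hn⟩
  · rintro ⟨n, hn⟩
    exact ⟨σ n, hn⟩

/-- The main theorem: every analytic quasi-order on a nonempty Polish space is Borel equivalent to
elementary embeddability on an invariant Borel class of countable structures. -/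
theorem main (X : Type) [Nonempty X] [TopologicalSpace X] [PolishSpace X] [MeasurableSpace X]
    [BorelSpace X] (R : Set (X × X)) (hR : AnalyticSet R) (hrefl : ∀ x, (x, x) ∈ R)
    (htrans : ∀ x y z, (x, y) ∈ R → (y, z) ∈ R → (x, z) ∈ R) :
    ∃ B : Set Str, MeasurableSet B ∧
      (∀ (σ : Equiv.Perm ℕ) (u : Str), u ∈ B → (fun i v => u i (σ ∘ v)) ∈ B) ∧
      (∃ f : X → Str, Measurable f ∧ (∀ x, f x ∈ B) ∧
        ∀ x y, (x, y) ∈ R ↔ ELe (f x) (f y)) ∧
      (∃ g : B → X, Measurable g ∧ ∀ u v : B, ELe u.1 v.1 ↔ (g u, g v) ∈ R) := by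
  classical
  obtain ⟨x₀⟩ := ‹Nonempty X›
  -- a Borel embedding of `X` into Baire space
  obtain ⟨c₀, hc₀m, hc₀i⟩ :=
    MeasurableSpace.measurable_injection_nat_bool_of_countablySeparated X
  let c : X → N := fun x n => (c₀ x n).toNat
  have hcm : Measurable c := by
    refine measurable_pi_lambda _ fun n => ?_
    exact (Measurable.of_discrete (f := Bool.toNat)).comp ((measurable_pi_apply n).comp hc₀m)
  have hci : Function.Injective c := by
    intro x y hxy
    apply hc₀i
    funext n
    have h := congrFun hxy n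
    simp only [c] at h
    cases h1 : c₀ x n <;> cases h2 : c₀ y n <;> simp_all
  -- the relation as a continuous image
  rw [AnalyticSet] at hR
  obtain ⟨ψ, hψ, hψr⟩ : ∃ ψ : (ℕ → ℕ) → X × X, Continuous ψ ∧ range ψ = R := by
    rcases hR with hR | hR
    · have := hrefl x₀
      rw [hR] at this
      exact absurd this (notMem_empty _)
    · exact hR
  have hS : AnalyticSet (range fun w : ℕ → ℕ => (c (ψ w).1, c (ψ w).2)) := by
    have h1 : Measurable (fun w : ℕ → ℕ => (c (ψ w).1, c (ψ w).2)) :=
      (hcm.comp (measurable_fst.comp hψ.measurable)).prodMk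
        (hcm.comp (measurable_snd.comp hψ.measurable))
    have h2 := (MeasurableSet.univ (α := ℕ → ℕ)).analyticSet_image h1
    rwa [image_univ] at h2
  rw [AnalyticSet] at hS
  obtain ⟨θ, hθ, hθr⟩ : ∃ θ : N → N × N, Continuous θ ∧
      range θ = range fun w : ℕ → ℕ => (c (ψ w).1, c (ψ w).2) := by
    rcases hS with hS | hS
    · have : (c (ψ 0).1, c (ψ 0).2) ∈ (∅ : Set (N × N)) := by
        rw [← hS]
        exact ⟨0, rfl⟩
      exact absurd this (notMem_empty _)
    · exact hS
  let α : N → N := fun w => (θ w).1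
  let β : N → N := fun w => (θ w).2
  have hα : Continuous α := continuous_fst.comp hθ
  have hβ : Continuous β := continuous_snd.comp hθ
  have h1 : ∀ w, ∃ x y, (x, y) ∈ R ∧ α w = c x ∧ β w = c y := by
    intro w
    have : θ w ∈ range fun w : ℕ → ℕ => (c (ψ w).1, c (ψ w).2) := by
      rw [← hθr]
      exact ⟨w, rfl⟩
    obtain ⟨w', hw'⟩ := this
    refine ⟨(ψ w').1, (ψ w').2, ?_, ?_, ?_⟩
    · rw [← hψr]
      exact ⟨w', rfl⟩
    · exact (congrArg Prod.fst hw').symm
    · exact (congrArg Prod.snd hw').symm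
  have h2 : ∀ x y, (x, y) ∈ R → ∃ w, α w = c x ∧ β w = c y := by
    intro x y hxy
    rw [← hψr] at hxy
    obtain ⟨w', hw'⟩ := hxy
    have : (c x, c y) ∈ range θ := by
      rw [hθr]
      exact ⟨w', by simp only [hw']⟩
    obtain ⟨w, hw⟩ := this
    exact ⟨w, congrArg Prod.fst hw, congrArg Prod.snd hw⟩
  have htr : ∀ u v t w w', α w = u → β w = v → α w' = v → β w' = t →
      ∃ w'', α w'' = u ∧ β w'' = t := by
    intro u v t w w' e1 e2 e3 e4
    obtain ⟨x, y, hxy, e5, e6⟩ := h1 w
    obtain ⟨y', z, hyz, e7, e8⟩ := h1 w'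
    have : y = y' := hci (by rw [← e6, ← e7, e2, e3])
    subst this
    obtain ⟨w'', e9, e10⟩ := h2 x z (htrans x y z hxy hyz)
    exact ⟨w'', by rw [e9, ← e5, e1], by rw [e10, ← e8, e4]⟩
  let Λ : X → List ℤ → Set K := fun x => Lam α β (c x)
  -- elementary embeddability of the coding structures
  have key : ∀ (x y : X) (π π' : ℕ → D), Fib (Λ x) π → Fib (Λ y) π' →
      ((x, y) ∈ R ↔ ELe (pull π) (pull π')) := by
    intro x y π π' hF hF'
    constructor
    · intro h
      obtain ⟨w, e1, e2⟩ := h2 x y h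
      exact lemmaB2 hF hF' (tree_map e1 e2)
    · intro h
      obtain ⟨g, g1, g2, g3⟩ := lemmaB1 hF hF' h
      rcases rel_of_map hα hβ htr g1 g2 g3 with h3 | ⟨w, e1, e2⟩
      · rw [hci h3]
        exact hrefl _
      · obtain ⟨x', y', hxy, e3, e4⟩ := h1 w
        have e5 : x = x' := hci (by rw [← e1, e3])
        have e6 : y = y' := hci (by rw [← e2, e4])
        rw [e5, e6]
        exact hxy
  have hΛ : ∀ p κ, MeasurableSet {x : X | κ ∈ Λ x p} := fun p κ =>
    hcm (measurableSet_lam (α := α) (β := β) p κ)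
  -- the class of structures
  let A : Set ((ℕ → D) × X) := {q | Fib (Λ q.2) q.1}
  have hA : MeasurableSet A := measurableSet_fib Λ hΛ
  let Φ : (ℕ → D) × X → Str := fun q => pull q.1
  have hΦ : Measurable Φ := measurable_pull.comp measurable_fst
  have hinj : InjOn Φ A := by
    rintro ⟨π, x⟩ hq ⟨π', x'⟩ hq' h
    obtain ⟨g, hg, hgπ, hgΛ⟩ := lemmaE (show Fib (Λ x) π from hq) (show Fib (Λ x') π' from hq') h
    obtain ⟨hid, hxx⟩ := rigid hg hgΛ
    have : ∀ d, mapD g d = d := by
      intro d
      rcases D_cases d with ⟨p, rfl⟩ | ⟨p, κ, c, rfl⟩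
      · rw [mapD_nd, hid]
      · rw [mapD_pt, hid]
    refine Prod.ext ?_ (hci hxx)
    funext n
    change π n = π' n
    rw [hgπ, this]
  have hAs : StandardBorelSpace A := hA.standardBorel
  let Ψ : A → Str := fun q => Φ q.1
  have hΨ : MeasurableEmbedding Ψ := by
    apply Measurable.measurableEmbedding (hΦ.comp measurable_subtype_coe)
    intro q q' h
    exact Subtype.ext (hinj q.2 q'.2 h)
  obtain ⟨G, hG, hGΨ⟩ := hΨ.exists_measurable_extend
    (g := fun q : A => q.1.2) (measurable_snd.comp measurable_subtype_coe) (fun _ => ⟨x₀⟩)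
  have hGpull : ∀ π x, Fib (Λ x) π → G (pull π) = x := by
    intro π x h
    exact congrFun hGΨ ⟨(π, x), h⟩
  refine ⟨Φ '' A, hA.image_of_measurable_injOn hΦ hinj, ?_, ?_, ?_⟩
  · rintro σ _ ⟨⟨π, x⟩, hq, rfl⟩
    exact ⟨(π ∘ σ, x), Fib.perm (show Fib (Λ x) π from hq) σ, rfl⟩
  · refine ⟨fun x => pull (rho (Λ x)), measurable_pull.comp (measurable_rho Λ hΛ), ?_, ?_⟩
    · intro x
      exact ⟨(rho (Λ x), x), fib_rho _, rfl⟩
    · intro x y
      exact key x y _ _ (fib_rho (Λ x)) (fib_rho (Λ y))
  · refine ⟨fun u => G u.1, hG.comp measurable_subtype_coe, ?_⟩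
    rintro ⟨_, ⟨⟨π, x⟩, hq, rfl⟩⟩ ⟨_, ⟨⟨π', y⟩, hq', rfl⟩⟩
    change ELe (pull π) (pull π') ↔ (G (pull π), G (pull π')) ∈ R
    rw [hGpull π x hq, hGpull π' y hq']
    exact (key x y π π' hq hq').symm

end Pool.Agent.W889.EE
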